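import Pool.Agent.H56.JW.Targets

/-!
# MP_959f6e_co, row PACK: a maximal packing by blocks
-/

set_option autoImplicit false

open Finset Pool.Agent.H56.JW
open Pool.Agent.H44.HC (StarFree)

namespace Pool.Agent.H52.JWQ

section
variable {V : Type} [Fintype V] [DecidableEq V]

/-- families of disjoint blocks with at most `m` vertices -/
def Fam (q m : ℕ) (G : SimpleGraph V) (F : Finset (Finset V)) : Prop :=
  (∀ B ∈ F, B.Nonempty ∧ Block q G B ∧ B.card ≤ m) ∧ ∀ B ∈ F, ∀ C ∈ F, B ≠ C → Disjoint B C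

open Classical in
/-- the member which contains `v` -/
noncomputable def bl (F : Finset (Finset V)) (v : V) : Finset V :=
  if h : ∃ B ∈ F, v ∈ B then h.choose else ∅

open Classical in
/-- a label -/
noncomputable def lb (F : Finset (Finset V)) (v : V) : V :=
  if h : (bl F v).Nonempty then h.choose else v

theorem bl_spec {F : Finset (Finset V)} {v : V} (h : ∃ B ∈ F, v ∈ B) :
    bl F v ∈ F ∧ v ∈ bl F v := by
  unfold bl
  rw [dif_pos h]
  exact h.choose_spec

theorem lb_mem {F : Finset (Finset V)} {v : V} (h : ∃ B ∈ F, v ∈ B) : lb F v ∈ bl F v := by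
  have h1 : (bl F v).Nonempty := ⟨v, (bl_spec h).2⟩
  unfold lb
  rw [dif_pos h1]
  exact h1.choose_spec

theorem lb_congr {F : Finset (Finset V)} {v w : V} (hv : ∃ B ∈ F, v ∈ B)
    (h : bl F v = bl F w) : lb F v = lb F w := by
  have h1 : (bl F v).Nonempty := ⟨v, (bl_spec hv).2⟩
  unfold lb
  rw [dif_pos h1, dif_pos (h ▸ h1)]
  congr 1
  rw [h]

theorem cls_eq {q m : ℕ} {G : SimpleGraph V} {F : Finset (Finset V)} (hF : Fam q m G F) {v : V}
    (hv : v ∉ univ \ F.biUnion id) : cls (univ \ F.biUnion id) (lb F) v = bl F v := by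
  have key : ∀ w, w ∉ univ \ F.biUnion id ↔ ∃ B ∈ F, w ∈ B := by
    intro w
    simp
  have hv' := (key v).1 hv
  ext w
  unfold cls
  rw [mem_filter]
  constructor
  · rintro ⟨_, hw, hl⟩
    have hw' := (key w).1 hw
    by_contra hne
    have h1 : bl F w ≠ bl F v := by
      intro h
      exact hne (h ▸ (bl_spec hw').2)
    have h2 := hF.2 _ (bl_spec hw').1 _ (bl_spec hv').1 h1
    exact disjoint_left.1 h2 (lb_mem hw') (hl ▸ lb_mem hv')
  · intro hw
    have hw' : ∃ B ∈ F, w ∈ B := ⟨bl F v, (bl_spec hv').1, hw⟩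
    refine ⟨mem_univ _, (key w).2 hw', ?_⟩
    refine lb_congr hw' ?_
    by_contra hne
    have h2 := hF.2 _ (bl_spec hw').1 _ (bl_spec hv').1 hne
    exact disjoint_left.1 h2 (bl_spec hw').2 hw

end

/-- row PACK -/
theorem pf_PACK (hP : T_PKL) : T_PACK := by
  classical
  intro V _ _ G r q hr hG
  set m := (r - 1) * (r - 1) + (2 * (r - 1) - 1) * q + 1 with hm
  obtain ⟨F, hF, hmax⟩ := Finset.exists_max_image
    (univ.filter fun F : Finset (Finset V) => Fam q m G F) Finset.card
    ⟨∅, by rw [mem_filter]; exact ⟨mem_univ _, by simp [Fam]⟩⟩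
  rw [mem_filter] at hF
  have hF' := hF.2
  have key : ∀ w, w ∉ univ \ F.biUnion id ↔ ∃ B ∈ F, w ∈ B := by
    intro w
    simp
  refine ⟨univ \ F.biUnion id, lb F, ⟨fun v hv => ?_, fun v hv => ?_, fun v => ?_⟩⟩
  · rw [cls_eq hF' hv]
    exact (hF'.1 _ (bl_spec ((key v).1 hv)).1).2.1
  · rw [cls_eq hF' hv]
    exact (hF'.1 _ (bl_spec ((key v).1 hv)).1).2.2
  · by_contra hcon
    rw [not_lt] at hcon
    obtain ⟨H, hH, hHc⟩ := exists_subset_card_eq hcon
    have hadj : ∀ x ∈ H, x ∈ univ \ F.biUnion id ∧ G.Adj v x := fun x hx =>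
      (mem_filter.1 (hH hx)).2
    have hA : AlphaLe (r - 1) G H := by
      intro T hT hi
      by_contra hc
      have h1 : r ≤ T.card := by omega
      obtain ⟨T', hT', hTc⟩ := exists_subset_card_eq h1
      refine hG ⟨v, T', hTc, fun w hw => (hadj w (hT (hT' hw))).2, ?_⟩
      exact hi.mono (by exact_mod_cast hT')
    obtain ⟨B, hB, hBb⟩ := hP V G (r - 1) q H hA (by rw [hHc])
    have hBne : B.Nonempty := by
      obtain ⟨a, _, hk⟩ := hBb
      rw [← card_pos]
      exact lt_of_le_of_lt (Nat.zero_le _) hk.1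
    have hBX : ∀ x ∈ B, ∀ C ∈ F, x ∉ C := by
      intro x hx C hC hxC
      have h1 := (hadj x (hB hx)).1
      exact (key x).2 ⟨C, hC, hxC⟩ h1
    have hnot : B ∉ F := by
      intro h
      obtain ⟨x, hx⟩ := hBne
      exact hBX x hx B h hx
    have hFam : Fam q m G (insert B F) := by
      constructor
      · intro C hC
        rw [mem_insert] at hC
        rcases hC with rfl | hC
        · exact ⟨hBne, hBb, (card_le_card hB).trans hHc.le⟩
        · exact hF'.1 C hC
      · intro C hC D hD hne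
        rw [mem_insert] at hC hD
        rcases hC with rfl | hC <;> rcases hD with rfl | hD
        · exact absurd rfl hne
        · exact disjoint_left.2 fun x hx hx' => hBX x hx D hD hx'
        · exact disjoint_left.2 fun x hx hx' => hBX x hx' C hC hx
        · exact hF'.2 C hC D hD hne
    have h2 := hmax (insert B F) (by rw [mem_filter]; exact ⟨mem_univ _, hFam⟩)
    rw [card_insert_of_notMem hnot] at h2
    omega

end Pool.Agent.H52.JWQ
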