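import Pool.Agent.H56.JW.Targets

/-!
# MP_959f6e_co, row PKL: a large set with small independence number contains a block
-/

set_option autoImplicit false

open Finset Pool.Agent.H56.JW

namespace Pool.Agent.H52.JWQ

/-- a maximum independent subset -/
theorem exists_max_indep {V : Type} [Fintype V] [DecidableEq V] (G : SimpleGraph V)
    (A : Finset V) : ∃ T ⊆ A, (T : Set V).Pairwise (fun x y => ¬ G.Adj x y) ∧
      AlphaLe T.card G A := by
  classical
  obtain ⟨T, hT, hmax⟩ := Finset.exists_max_image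
    (A.powerset.filter fun T : Finset V => (T : Set V).Pairwise (fun x y => ¬ G.Adj x y))
    Finset.card
    ⟨∅, by simp⟩
  rw [mem_filter, mem_powerset] at hT
  refine ⟨T, hT.1, hT.2, fun T' hT' hi => hmax T' ?_⟩
  rw [mem_filter, mem_powerset]
  exact ⟨hT', hi⟩

/-- a disconnected induced graph splits -/
theorem split {V : Type} [Fintype V] [DecidableEq V] (G : SimpleGraph V) (W : Finset V)
    (hW : W.Nonempty) (h : ¬ (G.induce (W : Set V)).Connected) :
    ∃ A1 A2 : Finset V, A1.Nonempty ∧ A2.Nonempty ∧ Disjoint A1 A2 ∧ A1 ∪ A2 = W ∧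
      ∀ u ∈ A1, ∀ w ∈ A2, ¬ G.Adj u w := by
  classical
  haveI : Nonempty (W : Set V) := by
    obtain ⟨x, hx⟩ := hW
    exact ⟨⟨x, hx⟩⟩
  have h1 : ¬ (G.induce (W : Set V)).Preconnected := fun hp => h ⟨hp⟩
  unfold SimpleGraph.Preconnected at h1
  push Not at h1
  obtain ⟨x, y, hxy⟩ := h1
  refine ⟨W.filter fun w => ∃ hw : w ∈ (W : Set V), (G.induce (W : Set V)).Reachable x ⟨w, hw⟩,
    W.filter fun w => ¬ ∃ hw : w ∈ (W : Set V), (G.induce (W : Set V)).Reachable x ⟨w, hw⟩,
    ⟨x.1, ?_⟩, ⟨y.1, ?_⟩, ?_, ?_, ?_⟩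
  · rw [mem_filter]
    exact ⟨x.2, x.2, SimpleGraph.Reachable.refl _⟩
  · rw [mem_filter]
    exact ⟨y.2, fun ⟨_, hr⟩ => hxy hr⟩
  · exact disjoint_filter_filter_not _ _ _
  · exact filter_union_filter_not_eq _ _
  · intro u hu w hw huw
    rw [mem_filter] at hu hw
    obtain ⟨hu1, hu2, hr⟩ := hu
    refine hw.2 ⟨hw.1, hr.trans (SimpleGraph.Adj.reachable ?_)⟩
    exact huw

theorem arith (a a1 a2 q h s c1 c2 : ℕ) (h1 : 1 ≤ a1) (h2 : 1 ≤ a2) (h12 : a1 + a2 ≤ a)
    (hs : s < a + q) (hc1 : c1 < a1 * a1 + (2 * a1 - 1) * q + 1)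
    (hc2 : c2 < a2 * a2 + (2 * a2 - 1) * q + 1) (hh : h ≤ s + (c1 + c2))
    (hf : a * a + (2 * a - 1) * q + 1 ≤ h) : False := by
  obtain ⟨b1, rfl⟩ : ∃ b1, a1 = b1 + 1 := ⟨a1 - 1, by omega⟩
  obtain ⟨b2, rfl⟩ : ∃ b2, a2 = b2 + 1 := ⟨a2 - 1, by omega⟩
  obtain ⟨c, rfl⟩ : ∃ c, a = b1 + b2 + 2 + c := ⟨a - (b1 + b2 + 2), by omega⟩
  have e1 : 2 * (b1 + 1) - 1 = 2 * b1 + 1 := by omega
  have e2 : 2 * (b2 + 1) - 1 = 2 * b2 + 1 := by omega
  have e3 : 2 * (b1 + b2 + 2 + c) - 1 = 2 * b1 + 2 * b2 + 2 * c + 3 := by omega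
  rw [e1] at hc1
  rw [e2] at hc2
  rw [e3] at hf
  nlinarith [Nat.zero_le (c * q), Nat.zero_le (b1 * b2), Nat.zero_le (c * b1),
    Nat.zero_le (c * b2), Nat.zero_le (c * c)]

theorem pkl_aux {V : Type} [Fintype V] [DecidableEq V] (G : SimpleGraph V) (q : ℕ) :
    ∀ (a : ℕ) (H : Finset V), AlphaLe a G H → a * a + (2 * a - 1) * q + 1 ≤ H.card →
      ∃ B ⊆ H, Block q G B := by
  intro a
  induction a using Nat.strong_induction_on with
  | _ a ih =>
    intro H hA hc
    have hne : H.Nonempty := by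
      rw [← card_pos]
      omega
    have ha : 1 ≤ a := by
      obtain ⟨x, hx⟩ := hne
      have := hA {x} (singleton_subset_iff.2 hx) (by simp)
      simpa using this
    have hbig : a + q < H.card := by
      obtain ⟨b, rfl⟩ : ∃ b, a = b + 1 := ⟨a - 1, by omega⟩
      have e1 : 2 * (b + 1) - 1 = 2 * b + 1 := by omega
      rw [e1] at hc
      nlinarith [Nat.zero_le (b * q), Nat.zero_le (b * b)]
    by_cases hK : KOn (a + q) G H
    · exact ⟨H, Subset.refl _, a, hA, hK⟩
    have h1 : ∃ S : Finset V, S.card < a + q ∧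
        ¬ (G.induce ((H \ S : Finset V) : Set V)).Connected := by
      by_contra hcon
      push Not at hcon
      exact hK ⟨hbig, hcon⟩
    obtain ⟨S, hS, hnc⟩ := h1
    have hsd : H.card ≤ S.card + (H \ S).card := by
      have := card_le_card_sdiff_add_card (s := H) (t := S)
      omega
    have hne2 : (H \ S).Nonempty := by
      rw [← card_pos]
      omega
    obtain ⟨A1, A2, hn1, hn2, hdis, hun, hno⟩ := split G (H \ S) hne2 hnc
    have hsub : H \ S ⊆ H := sdiff_subset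
    have hA1 : A1 ⊆ H := (subset_union_left.trans hun.subset).trans hsub
    have hA2 : A2 ⊆ H := (subset_union_right.trans hun.subset).trans hsub
    obtain ⟨T1, hT1, hi1, hm1⟩ := exists_max_indep G A1
    obtain ⟨T2, hT2, hi2, hm2⟩ := exists_max_indep G A2
    have hp1 : 1 ≤ T1.card := by
      obtain ⟨x, hx⟩ := hn1
      have := hm1 {x} (singleton_subset_iff.2 hx) (by simp)
      simpa using this
    have hp2 : 1 ≤ T2.card := by
      obtain ⟨x, hx⟩ := hn2
      have := hm2 {x} (singleton_subset_iff.2 hx) (by simp)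
      simpa using this
    have hsum : T1.card + T2.card ≤ a := by
      have hd : Disjoint T1 T2 := hdis.mono hT1 hT2
      rw [← card_union_of_disjoint hd]
      refine hA (T1 ∪ T2) (union_subset (hT1.trans hA1) (hT2.trans hA2)) ?_
      intro x hx y hy hxy
      rw [mem_coe, mem_union] at hx hy
      rcases hx with hx | hx <;> rcases hy with hy | hy
      · exact hi1 hx hy hxy
      · exact hno x (hT1 hx) y (hT2 hy)
      · exact fun h => hno y (hT1 hy) x (hT2 hx) h.symm
      · exact hi2 hx hy hxy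
    have hcard : (H \ S).card = A1.card + A2.card := by
      rw [← hun, card_union_of_disjoint hdis]
    by_cases hc1 : T1.card * T1.card + (2 * T1.card - 1) * q + 1 ≤ A1.card
    · obtain ⟨B, hB, hb⟩ := ih T1.card (by omega) A1 hm1 hc1
      exact ⟨B, hB.trans hA1, hb⟩
    by_cases hc2 : T2.card * T2.card + (2 * T2.card - 1) * q + 1 ≤ A2.card
    · obtain ⟨B, hB, hb⟩ := ih T2.card (by omega) A2 hm2 hc2
      exact ⟨B, hB.trans hA2, hb⟩
    exact (arith a T1.card T2.card q H.card S.card A1.card A2.card hp1 hp2 hsum hS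
      (not_le.1 hc1) (not_le.1 hc2) (by omega) hc).elim

/-- row PKL -/
theorem pf_PKL : T_PKL := by
  intro V _ _ G a q H hA hc
  exact pkl_aux G q a H hA hc

end Pool.Agent.H52.JWQ
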